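import Pool.Agent.N147.BN.Final

/-!
# MP_54820f_ag, Q1: the non-containment `M^r_{g,d} ⊄ M^2_{g,e}` fails

For all `r ≥ 3`, all `d ≥ 2 r` and all `g > (d-r+1)(d-r)/2` the Brill-Noether locus `M^r_{g,d}` is not
empty and is contained in `M^2_{g,e}`, `e = d - 2 r + 4`, although `(g, r, d, e)` satisfies all the
conditions of the question. So for every `r ≥ 3` and `d ≥ 2 r` the non-containment fails for all
sufficiently large `g`, and it fails for every `g ≥ 7`.

A curve is given by its function field `K` over `ℂ` (`IsCurve`), line bundles by local generators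
(`LineBundle`), `H0 L` is the space of global sections, and `genus K = dim H¹(C, 𝒪_C)`; see
`Pool/Agent/Helper395/CS/Defs.lean`, `Pool/Agent/Helper395/BC/Defs.lean` and
`Pool/Agent/Helper395/BC/Base.lean`. The proof uses the theorems of `Pool.Agent.N147.BN`.
-/

set_option autoImplicit false

namespace Pool.Agent.Results.MP_54820f_ag.LargeGenus

open Pool.Agent.Helper395.CS (IsCurve LineBundle)
open Pool.Agent.Helper395.BC (genus H0)

/-- The Brill-Noether number `ρ(g, r, d) = g - (r + 1) (g - d + r)`. -/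
def rho (g r d : ℤ) : ℤ := g - (r + 1) * (g - d + r)

/-- The curve with function field `K` carries a `g^r_d`: it has a line bundle `L` of degree `d` with
`h⁰(L) ≥ r + 1`. -/
def Carries (K : Type) [Field K] [Algebra ℂ K] (r d : ℕ) : Prop :=
  ∃ L : LineBundle K, L.degree = d ∧ r + 1 ≤ Module.finrank ℂ (H0 L)

/-- The Brill-Noether locus `M^r_{g,d}` is not empty. -/
def LocusNonempty (g r d : ℕ) : Prop :=
  ∃ (K : Type) (_ : Field K) (_ : Algebra ℂ K), IsCurve K ∧ genus K = g ∧ Carries K r d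

/-- The containment `M^r_{g,d} ⊆ M^s_{g,e}`: every curve of genus `g` with a `g^r_d` has a `g^s_e`. -/
def Contained (g r d s e : ℕ) : Prop :=
  ∀ (K : Type) (_ : Field K) (_ : Algebra ℂ K), IsCurve K → genus K = g → Carries K r d →
    Carries K s e

/-- The conditions of the question on `(g, r, d, e)`. -/
structure Conditions (g r d e : ℕ) : Prop where
  three_le : 3 ≤ r
  d_le : (d : ℤ) ≤ g - 1
  e_le : (e : ℤ) ≤ g - 1
  rho_lt : rho g r d < 0
  rho_lt' : rho g 2 e < 0
  lt : (e : ℤ) < d - 2 * r + 2 + ((r + 3) / 2 : ℕ)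

/-- The statement asked about, for the nonempty loci `M^r_{g,d}` only. -/
def Statement : Prop :=
  ∃ g₀ : ℕ, ∀ g ≥ g₀, ∀ r d e : ℕ, Conditions g r d e → LocusNonempty g r d →
    ¬ Contained g r d 2 e

theorem choose_bound {m g : ℕ} (hm : 3 ≤ m) (h : (m + 1).choose 2 < g) :
    2 * m < g ∧ m * (m + 1) < 2 * g := by
  have h1 : (m + 1).choose 2 * 2 = m * (m + 1) := by
    have h2 := Nat.choose_two_right (m + 1)
    rw [Nat.add_sub_cancel] at h2
    rw [h2, Nat.div_mul_cancel, mul_comm]
    rw [mul_comm]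
    exact (Nat.even_mul_succ_self m).two_dvd
  constructor <;> nlinarith

/-- All the assertions for given `r`, `d`. -/
theorem main {r d g : ℕ} (hr : 3 ≤ r) (hd : 2 * r ≤ d) (hg : (d - r + 1).choose 2 < g) :
    Conditions g r d (d - 2 * r + 4) ∧ LocusNonempty g r d ∧
      Contained g r d 2 (d - 2 * r + 4) := by
  obtain ⟨m, rfl⟩ : ∃ m, d = m + r := ⟨d - r, by omega⟩
  have hm : r ≤ m := by omega
  rw [Nat.add_sub_cancel] at hg
  obtain ⟨h1, h2⟩ := choose_bound (le_trans hr hm) hg
  have he : ((m + r - 2 * r + 4 : ℕ) : ℤ) = m - r + 4 := by omega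
  refine ⟨⟨hr, ?_, ?_, ?_, ?_, ?_⟩, ?_, ?_⟩
  · push_cast
    omega
  · rw [he]
    omega
  · unfold rho
    push_cast
    have h3 : (2 * m : ℤ) < g := by exact_mod_cast h1
    have h4 : (3 : ℤ) ≤ r := by exact_mod_cast hr
    have h5 : (r : ℤ) ≤ m := by exact_mod_cast hm
    nlinarith
  · unfold rho
    rw [he]
    have h3 : (2 * m : ℤ) < g := by exact_mod_cast h1
    have h4 : (3 : ℤ) ≤ r := by exact_mod_cast hr
    have h5 : (r : ℤ) ≤ m := by exact_mod_cast hm
    linarith
  · rw [he]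
    push_cast
    omega
  · obtain ⟨K, i1, i2, hK, hgK, H⟩ := Pool.Agent.N147.BN.exists_hyp g (by nlinarith)
    obtain ⟨L, hL1, hL2⟩ := H r
    have hg0 : genus K ≠ 0 := by rw [hgK]; omega
    obtain ⟨M, hM1, hM2⟩ := Pool.Agent.N147.BN.add_points hK hg0 L (m - r)
    refine ⟨K, i1, i2, hK, hgK, M, ?_, hL2.trans hM2⟩
    rw [hM1, hL1]
    omega
  · intro K i1 i2 hK hgK ⟨L, hL1, hL2⟩
    have hg0 : genus K ≠ 0 := by rw [hgK]; omega
    obtain ⟨M, hM1, hM2⟩ := Pool.Agent.N147.BN.contained hK hg0 (r := r) (d := m + r) (by omega)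
      hL1 hL2 (by rw [Nat.add_sub_cancel, hgK]; exact hg)
    refine ⟨M, ?_, hM2⟩
    rw [hM1, he]
    push_cast
    ring

/-- RESULT: the non-containment asked about is false. For all `r ≥ 3`, `d ≥ 2 r` and
`g > (d-r+1)(d-r)/2` the quadruple `(g, r, d, d - 2 r + 4)` satisfies the conditions of the question,
the locus `M^r_{g,d}` is not empty, and it is contained in `M^2_{g, d - 2 r + 4}`. In particular the
statement fails for every `g ≥ 7`, and the statement (even when restricted to nonempty loci) is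
false. -/
theorem result :
    (∀ r d g : ℕ, 3 ≤ r → 2 * r ≤ d → (d - r + 1).choose 2 < g →
      Conditions g r d (d - 2 * r + 4) ∧ LocusNonempty g r d ∧
        Contained g r d 2 (d - 2 * r + 4)) ∧
    (∀ g : ℕ, 7 ≤ g → ∃ r d e : ℕ, Conditions g r d e ∧ LocusNonempty g r d ∧
      Contained g r d 2 e) ∧
    ¬ Statement := by
  refine ⟨fun r d g hr hd hg => main hr hd hg, fun g hg => ?_, ?_⟩
  · exact ⟨3, 6, 4, main le_rfl le_rfl (by simp [Nat.choose]; omega)⟩
  · rintro ⟨g₀, H⟩
    have hg : (6 - 3 + 1).choose 2 < max g₀ 7 := by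
      simp [Nat.choose]
    obtain ⟨h1, h2, h3⟩ := main (r := 3) (d := 6) le_rfl le_rfl hg
    exact H _ (le_max_left _ _) 3 6 _ h1 h2 h3

end Pool.Agent.Results.MP_54820f_ag.LargeGenus
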